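import Pool.Agent.Run7.h940.PACH.END

/-!
# Homogeneous selection for colour classes of arbitrary sizes

MP_c3eb34_co, Q1, positive answer, without hypotheses: for every dimension `d ≥ 1` there is a
constant `c > 0` such that all `d + 1` nonempty finite sets in `ℝ^d`, of arbitrary sizes, admit a
homogeneous selection with the constant `c`; the same constant works for arbitrary nonnegative
weights on the points.

Steps of the proof (files `Pool/Agent/Run7/*/PACH/`, statements with proofs in
`Pool/Agent/Run7/h940/PACH/Iface.lean`):
* coloured first selection: some point is in at least the fraction `1 / (2^d d!)` of the rainbow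
  simplices. If every point is in fewer, choose for every cube of every dimension `j ≤ d` of a fine
  cubical grid a point of the class `j`, by averaging, such that for no flag of cubes the simplex of
  the chosen points is near the vertex of the flag; the map which is affine on the simplices of
  the barycentric subdivision and takes the centre of each cube to the chosen point has a fixed point
  (Brouwer), a contradiction;
* minimal supports, and reduction to a subspace in which the point is interior to the simplices;
* a box of subsets such that every large sub-box contains a simplex with the point inside;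
* separation of the classes by hyperplanes through the point (Borsuk-Ulam and induction on the
  dimension, with an alternative for sets in special position), and exchange of one vertex at a time;
* weights: the starting library `Pool.Agent.R87.HS`.
-/

set_option autoImplicit false

namespace Pool.Agent.Results.MP_c3eb34_co.AllSizes

/-- The classes `C 0, …, C d` in `ℝ^d` admit a homogeneous selection with the constant `c`: there are
a point `p` and subsets `D i ⊆ C i` with `|D i| ≥ c |C i|` such that every transversal of the `D i`
has `p` in its convex hull. -/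
def Selection (d : ℕ) (c : ℝ) (C : Fin (d + 1) → Finset (EuclideanSpace ℝ (Fin d))) : Prop :=
  ∃ (p : EuclideanSpace ℝ (Fin d)) (D : Fin (d + 1) → Finset (EuclideanSpace ℝ (Fin d))),
    (∀ i, D i ⊆ C i ∧ c * ((C i).card : ℝ) ≤ ((D i).card : ℝ)) ∧
    ∀ x : Fin (d + 1) → EuclideanSpace ℝ (Fin d), (∀ i, x i ∈ D i) →
      p ∈ convexHull ℝ (Set.range x)

/-- The same with weights `w` on the points: `D i` carries at least the fraction `c` of the weight of
`C i`. -/
def WeightedSelection (d : ℕ) (c : ℝ) (C : Fin (d + 1) → Finset (EuclideanSpace ℝ (Fin d)))
    (w : Fin (d + 1) → EuclideanSpace ℝ (Fin d) → ℝ) : Prop :=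
  ∃ (p : EuclideanSpace ℝ (Fin d)) (D : Fin (d + 1) → Finset (EuclideanSpace ℝ (Fin d))),
    (∀ i, D i ⊆ C i ∧ c * ∑ x ∈ C i, w i x ≤ ∑ x ∈ D i, w i x) ∧
    ∀ x : Fin (d + 1) → EuclideanSpace ℝ (Fin d), (∀ i, x i ∈ D i) →
      p ∈ convexHull ℝ (Set.range x)

/-- **Q1 of MP_c3eb34_co, positive answer.** -/
theorem result : ∀ d : ℕ, 1 ≤ d → ∃ c : ℝ, 0 < c ∧
    (∀ C : Fin (d + 1) → Finset (EuclideanSpace ℝ (Fin d)), (∀ i, (C i).Nonempty) →
      Selection d c C) ∧
    ∀ (C : Fin (d + 1) → Finset (EuclideanSpace ℝ (Fin d)))
      (w : Fin (d + 1) → EuclideanSpace ℝ (Fin d) → ℝ), (∀ i, ∀ x ∈ C i, 0 ≤ w i x) →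
      (∀ i, 0 < ∑ x ∈ C i, w i x) → WeightedSelection d c C w :=
  Run7.h940.PACH.weights Run7.h940.PACH.main

end Pool.Agent.Results.MP_c3eb34_co.AllSizes
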